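import Mathlib

/-!
# The algebra of the oriented veering edges of the fibre

`E` = oriented veering edges (darts), `ι` = reversal, `f` = monodromy. Every dart `e` has
exactly one triangle `F(e)` on its left in which it is the tall side; `W e`, `S e` are the wide and
the step side of `F(e)` (with `F(e)` on the left). `c` is the colour (slope sign).
-/

namespace Pool.Agent.Lib.MP_481aff_gt

structure VAlg (E : Type) where
  ι : Equiv.Perm E
  W : Equiv.Perm E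
  S : E → E
  f : Equiv.Perm E
  c : E → Bool
  x : E → ℝ
  y : E → ℝ
  lam : ℝ
  D : ℝ
  one_lt_lam : 1 < lam
  one_lt_D : 1 < D
  ι_ι : ∀ e, ι (ι e) = e
  ι_ne : ∀ e, ι e ≠ e
  c_ι : ∀ e, c (ι e) = c e
  x_ι : ∀ e, x (ι e) = x e
  y_ι : ∀ e, y (ι e) = y e
  f_ι : ∀ e, f (ι e) = ι (f e)
  f_W : ∀ e, f (W e) = W (f e)
  f_S : ∀ e, f (S e) = S (f e)
  c_f : ∀ e, c (f e) = c e
  x_f : ∀ e, x (f e) = lam * x e
  y_f : ∀ e, lam * y (f e) = y e
  x_pos : ∀ e, 0 < x e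
  y_pos : ∀ e, 0 < y e
  c_W : ∀ e, c (W e) = c e
  c_S : ∀ e, c (S e) = !(c e)
  x_W : ∀ e, x (W e) = x e + x (S e)
  y_W : ∀ e, y e = y (W e) + y (S e)
  flip : ∀ e, (W (W (ι e)) = ι (W (W e)) ∧ S (W e) = S (ι e) ∧ S (W (ι e)) = S e) ∨
    (W (S (ι e)) = ι (W (S e)) ∧ S (S e) = W (ι e) ∧ S (S (ι e)) = W e)
  R : Finset E
  rep : ∀ e, ∃! k : ℤ, (f ^ k) e ∈ R
  sum_x : ∀ b, ∑ e ∈ R with c e = b, Real.log (x (W e) / x e) = 2 * Real.log D
  sum_y : ∀ b, ∑ e ∈ R with c e = b, Real.log (y e / y (W e)) = 2 * Real.log D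

namespace VAlg

variable {E : Type} (A : VAlg E)

/-- Wider neighbour in the quadrant at the tail of a dart (of negative slope). -/
def α : Equiv.Perm E := A.ι * A.W

/-- Taller neighbour in the quadrant at the head. -/
def β : Equiv.Perm E := A.ι * A.W⁻¹

/-- The flip which destroys `e` preserves the colour. -/
def SameC (e : E) : Prop :=
  A.W (A.W (A.ι e)) = A.ι (A.W (A.W e)) ∧ A.S (A.W e) = A.S (A.ι e) ∧ A.S (A.W (A.ι e)) = A.S e

/-- The flip which destroys `e` changes the colour. -/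
def Chg (e : E) : Prop :=
  A.W (A.S (A.ι e)) = A.ι (A.W (A.S e)) ∧ A.S (A.S e) = A.W (A.ι e) ∧ A.S (A.S (A.ι e)) = A.W e

/-- `η = 1 / (10 D)`. -/
noncomputable def η : ℝ := 1 / (10 * A.D)

/-- Tiny darts. -/
def Tiny (e : E) : Prop :=
  A.SameC e ∧ A.x (A.S e) ≤ A.η * A.x e ∧ A.x (A.S (A.ι e)) ≤ A.η * A.x e ∧
    A.y (A.S e) ≤ A.η * A.y e ∧ A.y (A.S (A.ι e)) ≤ A.η * A.y e

end VAlg

end Pool.Agent.Lib.MP_481aff_gt
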