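import Mathlib

/-!
# Layered veering triangulations as periodic flip sequences

A fully-punctured pseudo-Anosov map `f : S → S` and its layered veering triangulation are encoded
by Agol's periodic sequence of diagonal exchanges between veering (weighted) ideal triangulations
of the fibre `S`.
-/

namespace Pool.Agent.Lib.MP_481aff_gt

/-- A (geometric, veering) ideal triangulation of an oriented punctured surface with a flat
(half-translation) structure. `H` is the set of darts: a dart is a side of a triangle, i.e. an
edge with the direction for which the triangle lies on the left. `next` is the next side of the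
same triangle, counterclockwise, `rev` is the same edge with the opposite direction. Every edge is
a straight segment of horizontal extent `x > 0`, vertical extent `y > 0` and positive
(`pos = true`) or negative slope. The fields `neg_corner` and `pos_corner` say that every triangle
is the euclidean triangle inscribed in a rectangle with one vertex at a corner of the rectangle:
counterclockwise, its sides are (tall, step, wide) if the corner sides have negative slope, and
(wide, step, tall) if they have positive slope. -/
structure VTri (H : Type) where
  next : Equiv.Perm H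
  rev : Equiv.Perm H
  pos : H → Bool
  x : H → ℝ
  y : H → ℝ
  next_next_next : ∀ h, next (next (next h)) = h
  next_ne : ∀ h, next h ≠ h
  rev_rev : ∀ h, rev (rev h) = h
  rev_ne : ∀ h, rev h ≠ h
  connected : ∀ h h', Relation.ReflTransGen (fun a b => b = next a ∨ b = rev a) h h'
  pos_rev : ∀ h, pos (rev h) = pos h
  x_rev : ∀ h, x (rev h) = x h
  y_rev : ∀ h, y (rev h) = y h
  x_pos : ∀ h, 0 < x h
  y_pos : ∀ h, 0 < y h
  two_slopes : ∀ h, ¬ (pos h = pos (next h) ∧ pos h = pos (next (next h)))
  neg_corner : ∀ h, pos h = false → pos (next h) = true → pos (next (next h)) = false →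
    x (next (next h)) = x h + x (next h) ∧ y h = y (next h) + y (next (next h))
  pos_corner : ∀ h, pos h = true → pos (next h) = false → pos (next (next h)) = true →
    x h = x (next h) + x (next (next h)) ∧ y (next (next h)) = y h + y (next h)

/-- `T'` is obtained from `T` by exchanging the diagonal `e` (with darts `e`, `T.rev e`), which is
required to be the tallest side of both triangles containing it. If the two triangles are
`(e, a, b)` and `(rev e, c, d)` then the new ones are `(e, b, c)` and `(rev e, d, a)`. Every other
edge is unchanged. (The new diagonal has a slope and extents for which `T'` is again a `VTri`;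
this determines them.) -/
structure IsFlip {H : Type} (T T' : VTri H) (e : H) : Prop where
  tall : T.y (T.next e) < T.y e ∧ T.y (T.next (T.next e)) < T.y e
  tall_rev : T.y (T.next (T.rev e)) < T.y e ∧ T.y (T.next (T.next (T.rev e))) < T.y e
  rev_eq : T'.rev = T.rev
  next_e : T'.next e = T.next (T.next e)
  next_b : T'.next (T.next (T.next e)) = T.next (T.rev e)
  next_c : T'.next (T.next (T.rev e)) = e
  next_rev_e : T'.next (T.rev e) = T.next (T.next (T.rev e))
  next_d : T'.next (T.next (T.next (T.rev e))) = T.next e
  next_a : T'.next (T.next e) = T.rev e
  next_other : ∀ h, h ≠ e → h ≠ T.next e → h ≠ T.next (T.next e) → h ≠ T.rev e →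
    h ≠ T.next (T.rev e) → h ≠ T.next (T.next (T.rev e)) → T'.next h = T.next h
  pos_eq : ∀ h, h ≠ e → h ≠ T.rev e → T'.pos h = T.pos h
  x_eq : ∀ h, h ≠ e → h ≠ T.rev e → T'.x h = T.x h
  y_eq : ∀ h, h ≠ e → h ≠ T.rev e → T'.y h = T.y h

/-- A layered veering triangulation together with the monodromy of a carried fibre: a sequence of
`n` diagonal exchanges `tri 0 → tri 1 → ⋯ → tri n` (one for each tetrahedron) between veering ideal
triangulations of the fibre, and the monodromy `mono`, which takes `tri 0` to `tri n`, multiplies
horizontal extents by the stretch factor `lam > 1` and divides vertical extents by `lam`. -/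
structure LayeredVeering (H : Type) where
  n : ℕ
  tri : ℕ → VTri H
  edge : ℕ → H
  flip : ∀ i, i < n → IsFlip (tri i) (tri (i + 1)) (edge i)
  lam : ℝ
  one_lt_lam : 1 < lam
  mono : Equiv.Perm H
  mono_next : ∀ h, mono ((tri 0).next h) = (tri n).next (mono h)
  mono_rev : ∀ h, mono ((tri 0).rev h) = (tri n).rev (mono h)
  mono_pos : ∀ h, (tri n).pos (mono h) = (tri 0).pos h
  mono_x : ∀ h, (tri n).x (mono h) = lam * (tri 0).x h
  mono_y : ∀ h, lam * (tri n).y (mono h) = (tri 0).y h

/-- The normalised dilatation `D = lam ^ |χ(S)|`. The triangulation of the fibre `S` has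
`card H / 3 = 2 |χ(S)|` triangles, so `|χ(S)| = card H / 6`. -/
noncomputable def LayeredVeering.D {H : Type} [Fintype H] (V : LayeredVeering H) : ℝ :=
  V.lam ^ ((Fintype.card H : ℝ) / 6)

end Pool.Agent.Lib.MP_481aff_gt
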