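import Pool.Agent.Lib.MP_481aff_gt.Mg.G001

/-! # Section 4: no slow hyperbolic relation -/

namespace Pool.Agent.Lib.MP_481aff_gt

namespace VAlg

variable {E : Type} (A : VAlg E)

/-- `α v = β (f ^ δ v)`. -/
def Q (δ : ℤ) (v : E) : Prop := A.α v = A.β ((A.f ^ δ) v)

theorem fz_α1 (k : ℤ) (e : E) : (A.f ^ k) (A.α e) = A.α ((A.f ^ k) e) := by
  have := A.fz_α k 1 e
  simpa using this

theorem fz_β1 (k : ℤ) (e : E) : (A.f ^ k) (A.β e) = A.β ((A.f ^ k) e) := by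
  have := A.fz_β k 1 e
  simpa using this

theorem fz_neg_fz (k : ℤ) (e : E) : (A.f ^ (-k)) ((A.f ^ k) e) = e := by
  rw [← Equiv.Perm.mul_apply, ← zpow_add]
  simp

theorem fz_fz_neg (k : ℤ) (e : E) : (A.f ^ k) ((A.f ^ (-k)) e) = e := by
  rw [← Equiv.Perm.mul_apply, ← zpow_add]
  simp

theorem x_β_lt (e : E) : A.x (A.β e) < A.x e := by
  have h := A.x_α_lt (A.ι (A.β e))
  have h2 : A.α (A.ι (A.β e)) = A.ι e := by
    rw [α_apply, β_apply, A.ι_ι]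
    simp
  rw [h2, A.x_ι, A.x_ι] at h
  exact h

theorem y_β_lt (e : E) : A.y e < A.y (A.β e) := by
  have h := A.y_α_lt (A.ι (A.β e))
  have h2 : A.α (A.ι (A.β e)) = A.ι e := by
    rw [α_apply, β_apply, A.ι_ι]
    simp
  rw [h2, A.y_ι, A.y_ι] at h
  exact h

/-- The recurrence along the hyperbolic chain. -/
theorem rec_of_Q (δ : ℤ) (hL2 : A.lam ^ δ < 2) (p v : E) (hp : A.α p = v) (hQp : A.Q δ p)
    (hQv : A.Q δ v) :
    A.x (A.α v) + A.lam ^ δ * A.x p = (1 + A.lam ^ δ) * A.x v ∧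
    A.y (A.α v) + (A.lam ^ δ)⁻¹ * A.y p = (1 + (A.lam ^ δ)⁻¹) * A.y v := by
  have hL0 : 0 < A.lam ^ δ := zpow_pos A.lam_pos δ
  have hβ : A.β⁻¹ v = (A.f ^ δ) p := by
    rw [Equiv.Perm.inv_eq_iff_eq]
    unfold Q at hQp
    rw [← hQp, hp]
  have hLi : (A.lam ^ δ)⁻¹ > 1 / 2 := by
    rw [gt_iff_lt, one_div]
    exact inv_strictAnti₀ hL0 hL2
  have hsame : A.SameC v := by
    rcases A.sameC_or_chg v with h | h
    · exact h
    · exfalso
      have h1 := A.chg_y v h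
      have h2 : A.y (A.W v) > (A.lam ^ δ)⁻¹ * A.y v := by
        have : A.y (A.α v) = A.y (A.W v) := by rw [α_apply, A.y_ι]
        rw [← this]
        unfold Q at hQv
        rw [hQv]
        have h3 := A.y_β_lt ((A.f ^ δ) v)
        rw [y_fz, zpow_neg] at h3
        exact h3
      have h3 : A.y (A.W (A.ι v)) > (A.lam ^ δ)⁻¹ * A.y v := by
        rw [← A.β_inv_apply, hβ, y_fz, zpow_neg]
        have : A.y v < A.y p := by rw [← hp]; exact A.y_α_lt p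
        have h4 : 0 < (A.lam ^ δ)⁻¹ := inv_pos.2 hL0
        exact mul_lt_mul_of_pos_left this h4
      have h5 := A.y_pos v
      nlinarith
  have hcomm := A.sameC_comm v hsame
  have hf : A.α (A.β⁻¹ v) = (A.f ^ δ) v := by
    rw [hβ, ← A.fz_α1, hp]
  have hS := A.S_β_inv v hsame
  constructor
  · have e1 : A.x (A.α (A.β⁻¹ v)) = A.x (A.β⁻¹ v) + A.x (A.S v) := by
      rw [α_apply, A.x_ι, A.x_W, hS]
    have e2 : A.x (A.α v) = A.x v + A.x (A.S v) := by rw [α_apply, A.x_ι, A.x_W]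
    rw [hf, hβ, x_fz, x_fz] at e1
    linarith
  · have e1 : A.y (A.β⁻¹ v) = A.y (A.α (A.β⁻¹ v)) + A.y (A.S v) := by
      rw [α_apply, A.y_ι, ← hS]; exact A.y_W _
    have e2 : A.y v = A.y (A.α v) + A.y (A.S v) := by rw [α_apply, A.y_ι]; exact A.y_W _
    rw [hf, hβ, y_fz, y_fz, zpow_neg] at e1
    linarith

theorem hyper_setup (e : E) (δ : ℤ) (hδ : 0 < δ) (h1 : A.α (A.β⁻¹ e) = (A.f ^ δ) e)
    (h2 : A.β⁻¹ (A.α e) = (A.f ^ δ) e) (h3 : A.lam ^ δ ≤ 1 + 2 * A.η) :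
    ∃ (p u r : E) (a b : ℝ) (M : ℕ), A.α p = u ∧ 0 < a ∧ a < A.x u ∧ 0 < b ∧ b < A.y u ∧
      A.x p < (1 - (A.lam ^ δ)⁻¹) * a ∧ A.y (A.α r) < (1 - (A.lam ^ δ)⁻¹) * b ∧
      A.x (A.β (A.α r)) < (1 - (A.lam ^ δ)⁻¹ * (A.lam ^ δ)⁻¹) * A.x (A.α r) ∧
      r = (A.α ^ (M : ℤ)) p ∧ 
      ∀ t : ℕ, 1 ≤ t → t < M → 
        A.x ((A.α ^ ((t : ℤ) + 1)) p) ≤ A.lam ^ δ * A.x ((A.α ^ (t : ℤ)) p) := by
  have hlam := A.one_lt_lam
  have hDpos := A.D_pos
  have hD1 := A.one_lt_D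
  have hη := A.η_mul
  have hηpos := A.η_pos
  set L : ℝ := A.lam ^ δ with hLdef
  have hL1 : 1 < L := one_lt_zpow₀ hlam hδ
  have hL0 : 0 < L := by linarith
  have hη10 : A.η < 1 / 10 := by nlinarith
  have hL2 : L < 2 := by linarith
  -- the sequence
  set w : ℤ → E := fun i => (A.α ^ i) e with hw
  have hw0 : w 0 = e := by simp [hw]
  have hsucc : ∀ i, A.α (w i) = w (i + 1) := by
    intro i
    simp only [hw]
    rw [← Equiv.Perm.mul_apply, ← zpow_one_add, add_comm]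
  have hQ0 : A.Q δ (w 0) := by
    unfold Q
    rw [hw0, ← h2]
    simp
  have hQm1 : A.Q δ (w (-1)) := by
    unfold Q
    have e1 : A.α (w (-1)) = e := by rw [hsucc, neg_add_cancel, hw0]
    rw [e1]
    have e2 : A.α ((A.f ^ δ) (w (-1))) = A.α (A.β⁻¹ e) := by
      rw [← A.fz_α1, e1, h1]
    have e3 := A.α.injective e2
    rw [e3]
    simp
  -- constants
  set c : ℝ := (A.x (w 0) - A.x (w (-1))) / (1 - L⁻¹) with hc
  set a : ℝ := A.x (w 0) - c with ha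
  set k : ℝ := (A.y (w (-1)) - A.y (w 0)) / (L - 1) with hk
  set b : ℝ := A.y (w 0) - k with hb
  have hLi : L⁻¹ < 1 := inv_lt_one_of_one_lt₀ hL1
  have hLi0 : 0 < L⁻¹ := inv_pos.2 hL0
  have hLL : L * L⁻¹ = 1 := mul_inv_cancel₀ hL0.ne'
  have hxlt : A.x (w (-1)) < A.x (w 0) := by
    have := A.x_α_lt (w (-1)); rw [hsucc] at this; simpa using this
  have hylt : A.y (w 0) < A.y (w (-1)) := by
    have := A.y_α_lt (w (-1)); rw [hsucc] at this; simpa using this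
  have hcpos : 0 < c := div_pos (by linarith) (by linarith)
  have hkpos : 0 < k := div_pos (by linarith) (by linarith)
  have hceq : c * (1 - L⁻¹) = A.x (w 0) - A.x (w (-1)) := by
    rw [hc]; exact div_mul_cancel₀ _ (by linarith)
  have hkeq : k * (L - 1) = A.y (w (-1)) - A.y (w 0) := by
    rw [hk]; exact div_mul_cancel₀ _ (by linarith)
  have hxm1 : A.x (w (-1)) = a + c * L⁻¹ := by rw [ha]; linarith
  have hym1 : A.y (w (-1)) = b + k * L := by rw [hb]; linarith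
  have hx0 : A.x (w 0) = a + c := by rw [ha]; ring
  have hy0 : A.y (w 0) = b + k := by rw [hb]; ring
  have hw0' : w 0 = A.β ((A.f ^ δ) (w (-1))) := by
    have := hQm1
    unfold Q at this
    rw [hsucc] at this
    simpa using this
  have hapos : 0 < a := by
    have h4 := A.x_β_lt ((A.f ^ δ) (w (-1)))
    rw [← hw0', x_fz, ← hLdef, hx0, hxm1] at h4
    have : a + c < L * a + c * (L * L⁻¹) := by linarith [mul_comm L (c * L⁻¹), mul_assoc c L L⁻¹,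
      (by ring : L * (a + c * L⁻¹) = L * a + c * (L * L⁻¹))]
    rw [hLL] at this
    nlinarith
  have hbpos : 0 < b := by
    have h4 := A.y_β_lt ((A.f ^ δ) (w (-1)))
    rw [← hw0', y_fz, zpow_neg, ← hLdef, hy0, hym1] at h4
    have e5 : L⁻¹ * (b + k * L) = L⁻¹ * b + k * (L * L⁻¹) := by ring
    rw [e5, hLL] at h4
    nlinarith
  -- sizes upwards
  have hup : ∀ n : ℕ, (∀ i : ℕ, i < n → A.Q δ (w i)) →
      (A.x (w n) = a + c * L ^ (n : ℤ) ∧ A.y (w n) = b + k * (L ^ (n : ℤ))⁻¹) ∧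
      (A.x (w ((n : ℤ) - 1)) = a + c * L ^ ((n : ℤ) - 1) ∧
        A.y (w ((n : ℤ) - 1)) = b + k * (L ^ ((n : ℤ) - 1))⁻¹) ∧ A.Q δ (w ((n : ℤ) - 1)) := by
    intro n
    induction n with
    | zero =>
      intro _
      refine ⟨⟨?_, ?_⟩, ⟨?_, ?_⟩, ?_⟩
      · simp [hx0]
      · simp [hy0]
      · simpa using hxm1
      · simpa using hym1
      · simpa using hQm1
    | succ n ih =>
      intro hQ
      obtain ⟨⟨ix, iy⟩, ⟨jx, jy⟩, hQn1⟩ := ih (fun i hi => hQ i (by omega))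
      have hQn := hQ n (by omega)
      have hp : A.α (w ((n : ℤ) - 1)) = w n := by rw [hsucc]; congr 1; ring
      obtain ⟨r1, r2⟩ := A.rec_of_Q δ hL2 _ _ hp hQn1 hQn
      rw [hsucc] at r1 r2
      have hcast : ((n + 1 : ℕ) : ℤ) = (n : ℤ) + 1 := by push_cast; ring
      have hz1 : L ^ ((n : ℤ) - 1) = L ^ (n : ℤ) * L⁻¹ := zpow_sub_one₀ hL0.ne' _
      have hz2 : L ^ ((n : ℤ) + 1) = L ^ (n : ℤ) * L := zpow_add_one₀ hL0.ne' _
      refine ⟨⟨?_, ?_⟩, ⟨?_, ?_⟩, ?_⟩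
      · rw [hcast, hz2]
        rw [← hLdef, jx, ix, hz1] at r1
        have : A.x (w ((n : ℤ) + 1)) = (1 + L) * (a + c * L ^ (n : ℤ)) -
          L * (a + c * (L ^ (n : ℤ) * L⁻¹)) := by linarith
        rw [this]
        have e6 : L * (a + c * (L ^ (n : ℤ) * L⁻¹)) = L * a + c * L ^ (n : ℤ) * (L * L⁻¹) := by ring
        rw [e6, hLL]; ring
      · rw [hcast, hz2]
        rw [← hLdef, jy, iy, hz1] at r2
        have : A.y (w ((n : ℤ) + 1)) = (1 + L⁻¹) * (b + k * (L ^ (n : ℤ))⁻¹) -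
          L⁻¹ * (b + k * (L ^ (n : ℤ) * L⁻¹)⁻¹) := by linarith
        rw [this, mul_inv, mul_inv, inv_inv]
        have e6 : L⁻¹ * (b + k * ((L ^ (n : ℤ))⁻¹ * L)) =
          L⁻¹ * b + k * (L ^ (n : ℤ))⁻¹ * (L * L⁻¹) := by ring
        rw [e6, hLL]; ring
      · rw [hcast]; simpa using ix
      · rw [hcast]; simpa using iy
      · rw [hcast]; simpa using hQn
  -- sizes downwards
  have hdown : ∀ n : ℕ, (∀ i : ℕ, i ≤ n → A.Q δ (w (-(i : ℤ)))) →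
      (A.x (w (-(n : ℤ))) = a + c * L ^ (-(n : ℤ)) ∧
        A.y (w (-(n : ℤ))) = b + k * (L ^ (-(n : ℤ)))⁻¹) ∧
      (A.x (w (-(n : ℤ) + 1)) = a + c * L ^ (-(n : ℤ) + 1) ∧
        A.y (w (-(n : ℤ) + 1)) = b + k * (L ^ (-(n : ℤ) + 1))⁻¹) := by
    intro n
    induction n with
    | zero =>
      intro _
      obtain ⟨⟨ix, iy⟩, -, -⟩ := hup 1 (by
        intro i hi
        have : i = 0 := by omega
        subst this
        simpa using hQ0)
      refine ⟨⟨?_, ?_⟩, ⟨?_, ?_⟩⟩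
      · simp [hx0]
      · simp [hy0]
      · simpa using ix
      · simpa using iy
    | succ n ih =>
      intro hQ
      obtain ⟨⟨ix, iy⟩, ⟨jx, jy⟩⟩ := ih (fun i hi => hQ i (by omega))
      have hQn := hQ n (by omega)
      have hQn1 := hQ (n + 1) le_rfl
      have hcast : -((n + 1 : ℕ) : ℤ) = -(n : ℤ) - 1 := by push_cast; ring
      rw [hcast] at hQn1 ⊢
      have hp : A.α (w (-(n : ℤ) - 1)) = w (-(n : ℤ)) := by rw [hsucc]; congr 1; ring
      obtain ⟨r1, r2⟩ := A.rec_of_Q δ hL2 _ _ hp hQn1 hQn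
      rw [hsucc] at r1 r2
      have hz1 : L ^ (-(n : ℤ) - 1) = L ^ (-(n : ℤ)) * L⁻¹ := zpow_sub_one₀ hL0.ne' _
      have hz2 : L ^ (-(n : ℤ) + 1) = L ^ (-(n : ℤ)) * L := zpow_add_one₀ hL0.ne' _
      refine ⟨⟨?_, ?_⟩, ⟨?_, ?_⟩⟩
      · rw [hz1]
        rw [← hLdef, jx, ix, hz2] at r1
        have e6 : L * A.x (w (-(n : ℤ) - 1)) = L * (a + c * (L ^ (-(n : ℤ)) * L⁻¹)) := by
          have e7 : L * (a + c * (L ^ (-(n : ℤ)) * L⁻¹)) =
            L * a + c * L ^ (-(n : ℤ)) * (L * L⁻¹) := by ring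
          rw [e7, hLL]
          linarith
        exact mul_left_cancel₀ hL0.ne' e6
      · rw [hz1]
        rw [← hLdef, jy, iy, hz2] at r2
        have e6 : L⁻¹ * A.y (w (-(n : ℤ) - 1)) =
            L⁻¹ * (b + k * (L ^ (-(n : ℤ)) * L⁻¹)⁻¹) := by
          rw [mul_inv, inv_inv]
          rw [mul_inv] at r2
          have e7 : L⁻¹ * (b + k * ((L ^ (-(n : ℤ)))⁻¹ * L)) =
            L⁻¹ * b + k * (L ^ (-(n : ℤ)))⁻¹ * (L * L⁻¹) := by ring
          rw [e7, hLL]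
          linarith
        exact mul_left_cancel₀ hLi0.ne' e6
      · have : -(n : ℤ) - 1 + 1 = -(n : ℤ) := by ring
        rw [this]; exact ix
      · have : -(n : ℤ) - 1 + 1 = -(n : ℤ) := by ring
        rw [this]; exact iy
  -- termination
  have hexK : ∃ n : ℕ, ¬ A.Q δ (w n) := by
    by_contra hcon
    push Not at hcon
    obtain ⟨i, hi⟩ := A.exists_y_lt e b hbpos
    obtain ⟨⟨-, iy⟩, -, -⟩ := hup i (fun j _ => hcon j)
    have : A.y (w i) < b := hi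
    rw [iy] at this
    have : 0 < k * (L ^ (i : ℤ))⁻¹ := by positivity
    linarith
  have hexJ : ∃ n : ℕ, ¬ A.Q δ (w (-(n : ℤ))) := by
    by_contra hcon
    push Not at hcon
    obtain ⟨i, hi⟩ := A.exists_x_lt e a hapos
    obtain ⟨⟨ix, -⟩, -⟩ := hdown i (fun j _ => hcon j)
    have : A.x (w (-(i : ℤ))) < a := hi
    rw [ix] at this
    have : 0 < c * L ^ (-(i : ℤ)) := by positivity
    linarith
  classical
  obtain ⟨K, hK, hKmin⟩ : ∃ K : ℕ, ¬ A.Q δ (w K) ∧ ∀ i < K, A.Q δ (w i) :=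
    ⟨Nat.find hexK, Nat.find_spec hexK, fun i hi => not_not.1 (Nat.find_min hexK hi)⟩
  obtain ⟨J, hJ, hJmin⟩ : ∃ J : ℕ, ¬ A.Q δ (w (-(J : ℤ))) ∧ ∀ i < J, A.Q δ (w (-(i : ℤ))) :=
    ⟨Nat.find hexJ, Nat.find_spec hexJ, fun i hi => not_not.1 (Nat.find_min hexJ hi)⟩
  have hK1 : 1 ≤ K := by
    rcases Nat.eq_zero_or_pos K with h | h
    · subst h; exact absurd (by simpa using hQ0) hK
    · exact h
  have hJ2 : 2 ≤ J := by
    by_contra hcon
    have : J = 0 ∨ J = 1 := by omega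
    rcases this with h | h
    · subst h; exact hJ (by simpa using hQ0)
    · subst h; exact hJ (by simpa using hQm1)
  -- size of `w K`
  obtain ⟨⟨hKx, hKy⟩, ⟨hK1x, hK1y⟩, hQK1⟩ := hup K hKmin
  -- sizes of `w (-(J-1))`, `w (-(J-1)+1)`
  obtain ⟨⟨hJx, hJy⟩, ⟨hJ1x, hJ1y⟩⟩ := hdown (J - 1) (fun i hi => hJmin i (by omega))
  have hJcast : -((J - 1 : ℕ) : ℤ) = -(J : ℤ) + 1 := by push_cast [Nat.cast_sub (by omega : 1 ≤ J)]; ring
  rw [hJcast] at hJx hJy hJ1x hJ1y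
  set p : E := w (-(J : ℤ)) with hp
  set u : E := w (-(J : ℤ) + 1) with hu
  set r : E := w K with hr
  have hαp : A.α p = u := hsucc _
  have hQu : A.Q δ u := by
    have := hJmin (J - 1) (by omega)
    rwa [hJcast] at this
  have hzp : 0 < L ^ (-(J : ℤ) + 1) := zpow_pos hL0 _
  -- θ = 1 - L⁻¹
  have hxp : A.x p < (1 - L⁻¹) * a := by
    have hβu : A.β u = (A.f ^ (-δ)) (A.α u) := by
      have h4 : A.α u = A.β ((A.f ^ δ) u) := hQu
      rw [h4, A.fz_β1, A.fz_neg_fz]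
    rcases A.UR p with ⟨h4, -, -⟩ | ⟨-, -, h4⟩
    · exfalso
      apply hJ
      show A.Q δ p
      rw [hαp, hβu, A.fz_α1] at h4
      have h5 := A.α.injective h4
      unfold Q
      rw [← A.fz_β1, h5, A.fz_fz_neg, hαp]
    · rw [hαp, hβu, x_fz, zpow_neg, ← hLdef, hu, hsucc, hJx, hJ1x] at h4
      have hz : L ^ (-(J : ℤ) + 1 + 1) = L ^ (-(J : ℤ) + 1) * L := zpow_add_one₀ hL0.ne' _
      rw [hz] at h4
      have e7 : L⁻¹ * (a + c * (L ^ (-(J : ℤ) + 1) * L)) =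
        L⁻¹ * a + c * L ^ (-(J : ℤ) + 1) * (L * L⁻¹) := by ring
      rw [e7, hLL] at h4
      linarith
  -- information at `w (K - 1)` and `r`
  have hαr1 : A.α (w ((K : ℤ) - 1)) = r := by rw [hsucc]; congr 1; ring
  have hzK : 0 < L ^ (K : ℤ) := zpow_pos hL0 _
  have hzK1 : L ^ ((K : ℤ) - 1) = L ^ (K : ℤ) * L⁻¹ := zpow_sub_one₀ hL0.ne' _
  have hkey : A.y (A.α r) < (1 - L⁻¹) * b ∧ A.x (A.α r) < a + c * L ^ (K : ℤ) * L ∧
      A.x (A.β r) < A.x r - A.x (w ((K : ℤ) - 1)) := by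
    have hβ1 : A.β (w ((K : ℤ) - 1)) = (A.f ^ (-δ)) r := by
      have h4 : A.α (w ((K : ℤ) - 1)) = A.β ((A.f ^ δ) (w ((K : ℤ) - 1))) := hQK1
      rw [← hαr1, h4, A.fz_β1, A.fz_neg_fz]
    rcases A.UR (w ((K : ℤ) - 1)) with ⟨h4, -, -⟩ | ⟨h4, h5, h6⟩
    · exfalso
      apply hK
      show A.Q δ r
      rw [hβ1, hαr1, ← A.fz_α1] at h4
      unfold Q
      rw [← A.fz_β1, ← h4, A.fz_fz_neg]
    · rw [hβ1, ← A.fz_α1, y_fz, y_fz, neg_neg, ← hLdef, hKy, hK1y, hzK1] at h4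
      rw [hβ1, ← A.fz_α1, hαr1, x_fz, x_fz, zpow_neg, ← hLdef, hKx, hK1x, hzK1] at h5
      rw [hαr1] at h6
      refine ⟨?_, ?_, by linarith⟩
      · rw [mul_inv, inv_inv] at h4
        have e7 : L * (b + k * (L ^ (K : ℤ))⁻¹) - (b + k * ((L ^ (K : ℤ))⁻¹ * L)) =
          L * ((1 - L⁻¹) * b) + (L * L⁻¹ - 1) * b := by ring
        rw [e7, hLL] at h4
        nlinarith
      · have e7 : L⁻¹ * (a + c * L ^ (K : ℤ)) = L⁻¹ * a + c * (L ^ (K : ℤ) * L⁻¹) := by ring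
        rw [e7] at h5
        have h8 : L⁻¹ * A.x (A.α r) < L⁻¹ * a + c * L ^ (K : ℤ) := by linarith
        have h9 : L * (L⁻¹ * A.x (A.α r)) < L * (L⁻¹ * a + c * L ^ (K : ℤ)) :=
          mul_lt_mul_of_pos_left h8 hL0
        have e8 : L * (L⁻¹ * A.x (A.α r)) = (L * L⁻¹) * A.x (A.α r) := by ring
        have e9 : L * (L⁻¹ * a + c * L ^ (K : ℤ)) = (L * L⁻¹) * a + c * L ^ (K : ℤ) * L := by ring
        rw [e8, e9, hLL] at h9
        linarith
  obtain ⟨hk1, hk2, hk3⟩ := hkey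
  have hS2 : A.x (A.β (A.α r)) < A.x (A.α r) - a - c * L ^ (K : ℤ) * L⁻¹ := by
    have hK1x' : A.x (w ((K : ℤ) - 1)) = a + c * L ^ (K : ℤ) * L⁻¹ := by rw [hK1x, hzK1]; ring
    rcases A.UR r with ⟨h4, h5, -⟩ | ⟨-, -, h4⟩
    · rw [← h4]; linarith
    · have : A.x (w ((K : ℤ) - 1)) < A.x r := by rw [← hαr1]; exact A.x_α_lt _
      linarith
  have hxαr : 0 < A.x (A.α r) := A.x_pos _
  -- θ₂ bound
  have hθ2 : A.x (A.β (A.α r)) < (1 - L⁻¹ * L⁻¹) * A.x (A.α r) := by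
    have h4 : (A.x (A.α r) - a) * (L⁻¹ * L⁻¹) < c * L ^ (K : ℤ) * L⁻¹ := by
      have h5 : A.x (A.α r) - a < c * L ^ (K : ℤ) * L := by linarith
      have h6 := mul_lt_mul_of_pos_right h5 (mul_pos hLi0 hLi0)
      have e7 : c * L ^ (K : ℤ) * L * (L⁻¹ * L⁻¹) = c * L ^ (K : ℤ) * L⁻¹ * (L * L⁻¹) := by ring
      rw [e7, hLL, mul_one] at h6
      exact h6
    have h5 : L⁻¹ * L⁻¹ < 1 := mul_lt_one_of_nonneg_of_lt_one_left hLi0.le hLi hLi.le
    have h6 : 0 < a * (1 - L⁻¹ * L⁻¹) := mul_pos hapos (by linarith)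
    linarith
  have hθpos : 0 < 1 - L⁻¹ := by linarith
  have hxu : A.x u = a + c * L ^ (-(J : ℤ) + 1) := hJx
  have hxua : a < A.x u := by rw [hxu]; have := mul_pos hcpos hzp; linarith
  have hyub : b < A.y u := by
    rw [show A.y u = b + k * (L ^ (-(J : ℤ) + 1))⁻¹ from hJy]
    have : 0 < k * (L ^ (-(J : ℤ) + 1))⁻¹ := by positivity
    linarith
  have hxWp : A.x (A.W p) = A.x u := by rw [← hαp, α_apply, A.x_ι]
  have hwp : ∀ t : ℤ, (A.α ^ t) p = w (-(J : ℤ) + t) := by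
    intro t
    simp only [hp, hw]
    rw [← Equiv.Perm.mul_apply, ← zpow_add, add_comm]
  -- formula for sizes in the whole range
  have hform : ∀ t : ℤ, -(J : ℤ) + 1 ≤ t → t ≤ K → A.x (w t) = a + c * L ^ t := by
    intro t ht1 ht2
    rcases le_or_gt 0 t with h0 | h0
    · obtain ⟨n, rfl⟩ := Int.eq_ofNat_of_zero_le h0
      exact (hup n (fun i hi => hKmin i (by omega))).1.1
    · obtain ⟨n, hn⟩ := Int.eq_ofNat_of_zero_le (by omega : 0 ≤ -t)
      have ht : t = -(n : ℤ) := by omega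
      rw [ht]
      exact (hdown n (fun i hi => hJmin i (by omega))).1.1
  refine ⟨p, u, r, a, b, J + K, hαp, hapos, hxua, hbpos, hyub, hxp, hk1, hθ2, ?_, ?_⟩
  · rw [hwp, hr]; congr 1; push_cast; ring
  · intro t ht1 ht2
    rw [hwp, hwp]
    have hx1 := hform (-(J : ℤ) + t) (by omega) (by omega)
    have hx2 := hform (-(J : ℤ) + (t + 1)) (by omega) (by omega)
    have hz : L ^ (-(J : ℤ) + (t + 1)) = L ^ (-(J : ℤ) + t) * L := by
      rw [← add_assoc]; exact zpow_add_one₀ hL0.ne' _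
    rw [hx2, hx1, hz]
    have h4 : 0 < a * (L - 1) := mul_pos hapos (by linarith)
    linarith [(by ring : L * (a + c * L ^ (-(J : ℤ) + t)) = L * a + c * (L ^ (-(J : ℤ) + t) * L))]

theorem hyper_num (L η D : ℝ) (hL1 : 1 < L) (h3 : L ≤ 1 + 2 * η) (hη : η * (10 * D) = 1)
    (hD1 : 1 < D) : (1 - L⁻¹ * L⁻¹) * D < 1 ∧ (1 - L⁻¹) * D < 1 := by
  have hL0 : 0 < L := by linarith
  have hLi : L⁻¹ < 1 := inv_lt_one_of_one_lt₀ hL1
  have hLi0 : 0 < L⁻¹ := inv_pos.2 hL0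
  have hLL : L * L⁻¹ = 1 := mul_inv_cancel₀ hL0.ne'
  have hη0 : 0 < η := by
    by_contra hcon
    push Not at hcon
    linarith
  have hη10 : η < 1 / 10 := by nlinarith
  have h4 : 1 - L⁻¹ * L⁻¹ ≤ L * L - 1 := by
    have e1 : (L * L) * (L⁻¹ * L⁻¹) = (L * L⁻¹) * (L * L⁻¹) := by ring
    rw [hLL, one_mul] at e1
    have h5 : 0 < L⁻¹ * L⁻¹ := mul_pos hLi0 hLi0
    have h6 : 0 ≤ (L * L - 1) := by nlinarith
    have h7 : (L * L - 1) * (1 - L⁻¹ * L⁻¹) ≥ 0 := mul_nonneg h6 (by nlinarith)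
    nlinarith
  have h5 : L * L - 1 ≤ 4 * η + 4 * η * η := by nlinarith
  have h6 : (L * L - 1) * D ≤ (4 * η + 4 * η * η) * D :=
    mul_le_mul_of_nonneg_right h5 (by linarith)
  have h7 : (4 * η + 4 * η * η) * D = (4 + 4 * η) * (η * D) := by ring
  have h8 : η * D = 1 / 10 := by linarith
  rw [h7, h8] at h6
  have h9 := mul_le_mul_of_nonneg_right h4 (by linarith : (0 : ℝ) ≤ D)
  have h10 : (1 - L⁻¹ * L⁻¹) * D < 1 := by linarith
  refine ⟨h10, ?_⟩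
  have h11 : 1 - L⁻¹ ≤ 1 - L⁻¹ * L⁻¹ := by nlinarith
  have := mul_le_mul_of_nonneg_right h11 (by linarith : (0 : ℝ) ≤ D)
  linarith

theorem no_hyperbolic (e : E) (δ : ℤ) (hδ : 0 < δ) (h1 : A.α (A.β⁻¹ e) = (A.f ^ δ) e)
    (h2 : A.β⁻¹ (A.α e) = (A.f ^ δ) e) (h3 : A.lam ^ δ ≤ 1 + 2 * A.η) : False := by
  obtain ⟨p, u, r, a, b, M, hαp, hapos, hxua, hbpos, hyub, hxp, hk1, hθ2, hrM, hratio⟩ :=
    A.hyper_setup e δ hδ h1 h2 h3
  have hL1 : 1 < A.lam ^ δ := one_lt_zpow₀ A.one_lt_lam hδ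
  obtain ⟨hθ2D, hθD⟩ := hyper_num (A.lam ^ δ) A.η A.D hL1 h3 A.η_mul A.one_lt_D
  have hDpos := A.D_pos
  have hη10 : A.η < 1 / 10 := by
    have := A.η_mul
    have := A.one_lt_D
    have := A.η_pos
    nlinarith
  clear h1 h2
  generalize A.lam ^ δ = L at *
  have hL0 : 0 < L := by linarith
  have hLi : L⁻¹ < 1 := inv_lt_one_of_one_lt₀ hL1
  have hLL : L * L⁻¹ = 1 := mul_inv_cancel₀ hL0.ne'
  have hθpos : 0 < 1 - L⁻¹ := by linarith
  have hxαr : 0 < A.x (A.α r) := A.x_pos _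
  have hxWp : A.x (A.W p) = A.x u := by rw [← hαp, α_apply, A.x_ι]
  -- uniqueness
  have hcr : A.c (A.α r) = A.c p := by
    have h4 : A.c r = A.c p := by rw [hrM]; exact A.c_αz _ _
    rw [← h4]
    have := A.c_αz 1 r
    simpa using this
  have hβι : A.β (A.α r) = A.ι (A.W⁻¹ (A.α r)) := rfl
  have hxS2 : A.x (A.W⁻¹ (A.α r)) = A.x (A.β (A.α r)) := by rw [hβι, A.x_ι]
  have hcS2 : A.c (A.W⁻¹ (A.α r)) = A.c (A.α r) := by
    have := A.c_W (A.W⁻¹ (A.α r))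
    rw [show A.W (A.W⁻¹ (A.α r)) = A.α r by simp] at this
    exact this.symm
  have hDp : A.D * A.x p < A.x (A.W p) := by
    rw [hxWp]
    have h4 : A.D * A.x p < A.D * ((1 - L⁻¹) * a) := mul_lt_mul_of_pos_left hxp hDpos
    have h5 : A.D * ((1 - L⁻¹) * a) = ((1 - L⁻¹) * A.D) * a := by ring
    have h6 : ((1 - L⁻¹) * A.D) * a < 1 * a := mul_lt_mul_of_pos_right hθD hapos
    linarith
  have hDS2 : A.D * A.x (A.W⁻¹ (A.α r)) < A.x (A.W (A.W⁻¹ (A.α r))) := by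
    rw [hxS2, show A.W (A.W⁻¹ (A.α r)) = A.α r by simp]
    have h4 := mul_lt_mul_of_pos_left hθ2 hDpos
    have h5 : A.D * ((1 - L⁻¹ * L⁻¹) * A.x (A.α r)) =
      ((1 - L⁻¹ * L⁻¹) * A.D) * A.x (A.α r) := by ring
    have h6 := mul_lt_mul_of_pos_right hθ2D hxαr
    linarith
  obtain ⟨r', hr'⟩ := A.U_x p (A.W⁻¹ (A.α r)) (by rw [hcS2, hcr]) hDp hDS2
  have hαr' : A.α r = A.ι ((A.f ^ r') u) := by
    have h4 : A.α r = A.W ((A.f ^ r') p) := by rw [← hr']; simp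
    rw [h4, ← A.fz_W, ← A.fz_ι, ← hαp, α_apply, A.ι_ι]
  -- sizes
  have hylam : A.lam ^ (-r') < 1 - L⁻¹ := by
    have h4 : A.lam ^ (-r') * A.y u < (1 - L⁻¹) * b := by
      have := hk1
      rw [hαr', A.y_ι, y_fz] at this
      exact this
    have h5 : A.lam ^ (-r') * A.y u < (1 - L⁻¹) * A.y u := by
      have := mul_lt_mul_of_pos_left hyub hθpos
      linarith
    exact lt_of_mul_lt_mul_right h5 (A.y_pos u).le
  have hxlam : A.x (A.α r) = A.lam ^ r' * A.x u := by rw [hαr', A.x_ι, x_fz]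
  have hlamr : 1 < A.lam ^ r' * (1 - L⁻¹) := by
    have h4 : 0 < A.lam ^ r' := zpow_pos A.lam_pos _
    have h5 := mul_lt_mul_of_pos_left hylam h4
    rw [← zpow_add₀ A.lam_pos.ne', add_neg_cancel, zpow_zero] at h5
    exact h5
  -- the chain `p, α p, …, α r`
  have hbig : A.D ^ 2 * A.x p < A.x (A.α r) := by
    -- x(αr) * θ > x u, θ * x u > x p
    have h4 : A.x p < (1 - L⁻¹) * A.x u := by
      have := mul_lt_mul_of_pos_left hxua hθpos
      linarith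
    have h5 : A.x u < (1 - L⁻¹) * A.x (A.α r) := by
      rw [hxlam]
      have := mul_lt_mul_of_pos_right hlamr (A.x_pos u)
      linarith [(by ring : (1 - L⁻¹) * (A.lam ^ r' * A.x u) = A.lam ^ r' * (1 - L⁻¹) * A.x u)]
    have h6 : A.D * A.x p < A.x u := by
      have h7 := mul_lt_mul_of_pos_left h4 hDpos
      have h8 := mul_lt_mul_of_pos_right hθD (A.x_pos u)
      linarith [(by ring : A.D * ((1 - L⁻¹) * A.x u) = (1 - L⁻¹) * A.D * A.x u)]
    have h7 : A.D * A.x u < A.x (A.α r) := by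
      have h7 := mul_lt_mul_of_pos_left h5 hDpos
      have h8 := mul_lt_mul_of_pos_right hθD hxαr
      linarith [(by ring : A.D * ((1 - L⁻¹) * A.x (A.α r)) = (1 - L⁻¹) * A.D * A.x (A.α r))]
    have h8 := mul_lt_mul_of_pos_left h6 hDpos
    nlinarith
  have hlast : A.α r = (A.α ^ ((M + 1 : ℕ) : ℤ)) p := by
    rw [hrM]
    push_cast
    rw [add_comm, zpow_add, zpow_one, Equiv.Perm.mul_apply]
  have hnot : ¬ ∀ i j : ℕ, i < j → j < M + 1 → ∀ m : ℤ,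
      (A.α ^ (j : ℤ)) p ≠ (A.f ^ m) ((A.α ^ (i : ℤ)) p) := by
    intro hcon
    have := A.x_αz_le p (M + 1) hcon
    rw [← hlast] at this
    linarith
  push Not at hnot
  obtain ⟨i, j, hij, hjJ, m, hm⟩ := hnot
  -- shift to the start
  have hshift : (A.α ^ ((j - i : ℕ) : ℤ)) p = (A.f ^ m) p := by
    have h5 : (j : ℤ) = (i : ℤ) + ((j - i : ℕ) : ℤ) := by
      rw [Nat.cast_sub hij.le]; ring
    rw [h5, zpow_add, Equiv.Perm.mul_apply, A.fz_α] at hm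
    exact (A.α ^ (i : ℤ)).injective hm
  have hs1 : 1 ≤ j - i := by omega
  have hsle : j - i ≤ M := by omega
  generalize j - i = s at *
  have hsucc : (A.α ^ ((s : ℤ) + 1)) p = (A.f ^ m) u := by
    rw [add_comm, zpow_add, zpow_one, Equiv.Perm.mul_apply, hshift, ← A.fz_α1, hαp]
  rcases Nat.lt_or_ge s M with hlt | hge
  · -- ratio at most `L`
    have h6 := hratio s hs1 hlt
    have hlm : 0 < A.lam ^ m := zpow_pos A.lam_pos _
    rw [hsucc, hshift, x_fz, x_fz] at h6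
    have h7 : A.x u ≤ L * A.x p := by
      have : A.lam ^ m * A.x u ≤ A.lam ^ m * (L * A.x p) := by linarith
      exact le_of_mul_le_mul_left this hlm
    have h8 : L * A.x p < L * ((1 - L⁻¹) * A.x u) := by
      have := mul_lt_mul_of_pos_left hxua hθpos
      exact mul_lt_mul_of_pos_left (by linarith) hL0
    have h9 : L * ((1 - L⁻¹) * A.x u) = (L - L * L⁻¹) * A.x u := by ring
    rw [h9, hLL] at h8
    have := A.x_pos u
    nlinarith
  · have hsM : s = M := by omega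
    have h4 : r = (A.f ^ m) p := by rw [hrM, ← hsM, hshift]
    have h5 : A.α r = (A.f ^ m) u := by rw [h4, ← A.fz_α1, hαp]
    have h6 : A.lam ^ m = A.lam ^ r' := by
      have h7 : A.x (A.α r) = A.lam ^ m * A.x u := by rw [h5, x_fz]
      rw [hxlam] at h7
      exact (mul_right_cancel₀ (A.x_pos u).ne' h7).symm
    have h7 : m = r' := zpow_right_injective₀ A.lam_pos A.one_lt_lam.ne' h6
    rw [h7, hαr'] at h5
    exact A.ι_ne _ h5

end VAlg

end Pool.Agent.Lib.MP_481aff_gt
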