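import Pool.Agent.Lib.MP_481aff_gt.Defs

/-! # Once-punctured torus bundles -/

namespace Pool.Agent.Lib.MP_481aff_gt

namespace T19

/-- Follow a word. -/
def run (nx rv : Fin 6 → Fin 6) : List Bool → Fin 6 → Fin 6
  | [], h => h
  | b :: w, h => run nx rv w (if b = true then nx h else rv h)

theorem run_reach (nx rv : Fin 6 → Fin 6) (w : List Bool) (h : Fin 6) :
    Relation.ReflTransGen (fun a b => b = nx a ∨ b = rv a) h (run nx rv w h) := by
  induction w generalizing h with
  | nil => exact Relation.ReflTransGen.refl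
  | cons b w ih =>
    refine Relation.ReflTransGen.head ?_ (ih _)
    by_cases hb : b = true
    · left; simp [hb]
    · right; simp [hb]

def rvF : Fin 6 → Fin 6 := ![3, 4, 5, 0, 1, 2]
def rv : Equiv.Perm (Fin 6) := ⟨rvF, rvF, by decide, by decide⟩

def aF : Fin 6 → Fin 6 := ![1, 2, 0, 4, 5, 3]
def aG : Fin 6 → Fin 6 := ![2, 0, 1, 5, 3, 4]
def pa : Equiv.Perm (Fin 6) := ⟨aF, aG, by decide, by decide⟩

/-- `(0 2 4)(3 5 1)` -/
def bF : Fin 6 → Fin 6 := ![2, 3, 4, 5, 0, 1]
def bG : Fin 6 → Fin 6 := ![4, 5, 0, 1, 2, 3]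
def pb : Equiv.Perm (Fin 6) := ⟨bF, bG, by decide, by decide⟩

/-- `0 → 1 → 5 → 0`, `2 → 3 → 4 → 2` -/
def dF : Fin 6 → Fin 6 := ![1, 5, 3, 4, 2, 0]
def dG : Fin 6 → Fin 6 := ![5, 0, 4, 2, 3, 1]
def pd : Equiv.Perm (Fin 6) := ⟨dF, dG, by decide, by decide⟩

def words : List (List Bool) :=
  [[], [true], [false], [true, true], [true, false], [false, true], [false, true, true],
   [true, false, true], [true, false, true, true], [true, true, false], [true, true, false, true],
   [false, true, false], [false, true, true, false], [true, true, false, true, true],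
   [false, true, true, false, true]]

theorem conn_a : ∀ h h' : Fin 6, ∃ w ∈ words, run aF rvF w h = h' := by decide
theorem conn_b : ∀ h h' : Fin 6, ∃ w ∈ words, run bF rvF w h = h' := by decide
theorem conn_d : ∀ h h' : Fin 6, ∃ w ∈ words, run dF rvF w h = h' := by decide

/-- Even times. -/
noncomputable def triA (a b : ℝ) (ha : 0 < a) (hb : 0 < b) : VTri (Fin 6) where
  next := pa
  rev := rv
  pos := ![false, true, false, false, true, false]
  x := ![a, 1, a + 1, a, 1, a + 1]
  y := ![b + 1, 1, b, b + 1, 1, b]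
  next_next_next := by decide
  next_ne := by decide
  rev_rev := by decide
  rev_ne := by decide
  connected := fun h h' => by
    obtain ⟨w, -, hw⟩ := conn_a h h'
    rw [← hw]
    exact run_reach aF rvF w h
  pos_rev := by decide
  x_rev := by intro h; fin_cases h <;> rfl
  y_rev := by intro h; fin_cases h <;> rfl
  x_pos := by intro h; fin_cases h <;> simp <;> linarith
  y_pos := by intro h; fin_cases h <;> simp <;> linarith
  two_slopes := by decide
  neg_corner := by
    intro h; fin_cases h <;> simp [pa, aF] <;> ring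
  pos_corner := by
    intro h; fin_cases h <;> simp [pa, aF]

/-- Odd times. -/
noncomputable def triB (a b : ℝ) (ha : 0 < a) (hb : 0 < b) : VTri (Fin 6) where
  next := pb
  rev := rv
  pos := ![false, true, false, false, true, false]
  x := ![a + 1, 1, a, a + 1, 1, a]
  y := ![b, 1, b + 1, b, 1, b + 1]
  next_next_next := by decide
  next_ne := by decide
  rev_rev := by decide
  rev_ne := by decide
  connected := fun h h' => by
    obtain ⟨w, -, hw⟩ := conn_b h h'
    rw [← hw]
    exact run_reach bF rvF w h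
  pos_rev := by decide
  x_rev := by intro h; fin_cases h <;> rfl
  y_rev := by intro h; fin_cases h <;> rfl
  x_pos := by intro h; fin_cases h <;> simp <;> linarith
  y_pos := by intro h; fin_cases h <;> simp <;> linarith
  two_slopes := by decide
  neg_corner := by
    intro h; fin_cases h <;> simp [pb, bF] <;> ring
  pos_corner := by
    intro h; fin_cases h <;> simp [pb, bF]

/-- Time `M + 1`. -/
noncomputable def triC (a b : ℝ) (ha : 0 < a) (hb : 0 < b) (hb1 : b < 1) : VTri (Fin 6) where
  next := pb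
  rev := rv
  pos := ![true, true, false, true, true, false]
  x := ![a + 1, 1, a, a + 1, 1, a]
  y := ![1 - b, 1, b, 1 - b, 1, b]
  next_next_next := by decide
  next_ne := by decide
  rev_rev := by decide
  rev_ne := by decide
  connected := fun h h' => by
    obtain ⟨w, -, hw⟩ := conn_b h h'
    rw [← hw]
    exact run_reach bF rvF w h
  pos_rev := by decide
  x_rev := by intro h; fin_cases h <;> rfl
  y_rev := by intro h; fin_cases h <;> rfl
  x_pos := by intro h; fin_cases h <;> simp <;> linarith
  y_pos := by intro h; fin_cases h <;> simp <;> linarith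
  two_slopes := by decide
  neg_corner := by
    intro h; fin_cases h <;> simp [pb, bF]
  pos_corner := by
    intro h; fin_cases h <;> simp [pb, bF]

/-- Time `M + 2`. -/
noncomputable def triD (a b : ℝ) (ha : 0 < a) (hb : 1 / 2 < b) (hb1 : b < 1) : VTri (Fin 6) where
  next := pd
  rev := rv
  pos := ![true, false, false, true, false, false]
  x := ![a + 1, 2 * a + 1, a, a + 1, 2 * a + 1, a]
  y := ![1 - b, 2 * b - 1, b, 1 - b, 2 * b - 1, b]
  next_next_next := by decide
  next_ne := by decide
  rev_rev := by decide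
  rev_ne := by decide
  connected := fun h h' => by
    obtain ⟨w, -, hw⟩ := conn_d h h'
    rw [← hw]
    exact run_reach dF rvF w h
  pos_rev := by decide
  x_rev := by intro h; fin_cases h <;> rfl
  y_rev := by intro h; fin_cases h <;> rfl
  x_pos := by intro h; fin_cases h <;> simp <;> linarith
  y_pos := by intro h; fin_cases h <;> simp <;> linarith
  two_slopes := by decide
  neg_corner := by
    intro h; fin_cases h <;> simp [pd, dF] <;> (constructor <;> ring)
  pos_corner := by
    intro h; fin_cases h <;> simp [pd, dF]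

theorem flipAB (a b : ℝ) (ha : 0 < a) (hb : 0 < b) (ha' : 0 < a + 1) (hb' : 0 < b - 1) :
    IsFlip (triA a b ha hb) (triB (a + 1) (b - 1) ha' hb') 0 where
  tall := by constructor <;> simp [triA, pa, aF] <;> linarith
  tall_rev := by constructor <;> simp [triA, pa, aF, rv, rvF] <;> linarith
  rev_eq := rfl
  next_e := by simp only [triA, triB]; decide
  next_b := by simp only [triA, triB]; decide
  next_c := by simp only [triA, triB]; decide
  next_rev_e := by simp only [triA, triB]; decide
  next_d := by simp only [triA, triB]; decide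
  next_a := by simp only [triA, triB]; decide
  next_other := by
    have key : ∀ h : Fin 6, h = 0 ∨ h = pa 0 ∨ h = pa (pa 0) ∨ h = rv 0 ∨ h = pa (rv 0) ∨
        h = pa (pa (rv 0)) := by decide
    intro h h1 h2 h3 h4 h5 h6
    rcases key h with h0 | h0 | h0 | h0 | h0 | h0
    exacts [absurd h0 h1, absurd h0 h2, absurd h0 h3, absurd h0 h4, absurd h0 h5, absurd h0 h6]
  pos_eq := by simp only [triA, triB]; decide
  x_eq := by
    intro h h1 h2
    fin_cases h <;> simp [triA, triB, rv, rvF] at h1 h2 ⊢
  y_eq := by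
    intro h h1 h2
    fin_cases h <;> simp [triA, triB, rv, rvF] at h1 h2 ⊢

theorem flipBA (a b : ℝ) (ha : 0 < a) (hb : 0 < b) (ha' : 0 < a + 1) (hb' : 0 < b - 1) :
    IsFlip (triB a b ha hb) (triA (a + 1) (b - 1) ha' hb') 2 where
  tall := by constructor <;> simp [triB, pb, bF] <;> linarith
  tall_rev := by constructor <;> simp [triB, pb, bF, rv, rvF] <;> linarith
  rev_eq := rfl
  next_e := by simp only [triA, triB]; decide
  next_b := by simp only [triA, triB]; decide
  next_c := by simp only [triA, triB]; decide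
  next_rev_e := by simp only [triA, triB]; decide
  next_d := by simp only [triA, triB]; decide
  next_a := by simp only [triA, triB]; decide
  next_other := by
    have key : ∀ h : Fin 6, h = 2 ∨ h = pb 2 ∨ h = pb (pb 2) ∨ h = rv 2 ∨ h = pb (rv 2) ∨
        h = pb (pb (rv 2)) := by decide
    intro h h1 h2 h3 h4 h5 h6
    rcases key h with h0 | h0 | h0 | h0 | h0 | h0
    exacts [absurd h0 h1, absurd h0 h2, absurd h0 h3, absurd h0 h4, absurd h0 h5, absurd h0 h6]
  pos_eq := by simp only [triA, triB]; decide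
  x_eq := by
    intro h h1 h2
    fin_cases h <;> simp [triA, triB, rv, rvF] at h1 h2 ⊢
  y_eq := by
    intro h h1 h2
    fin_cases h <;> simp [triA, triB, rv, rvF] at h1 h2 ⊢

theorem flipAC (a b : ℝ) (ha : 0 < a) (hb : 0 < b) (ha' : 0 < a + 1) (hb1 : b < 1) :
    IsFlip (triA a b ha hb) (triC (a + 1) b ha' hb hb1) 0 where
  tall := by constructor <;> simp [triA, pa, aF] <;> linarith
  tall_rev := by constructor <;> simp [triA, pa, aF, rv, rvF] <;> linarith
  rev_eq := rfl
  next_e := by simp only [triA, triC]; decide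
  next_b := by simp only [triA, triC]; decide
  next_c := by simp only [triA, triC]; decide
  next_rev_e := by simp only [triA, triC]; decide
  next_d := by simp only [triA, triC]; decide
  next_a := by simp only [triA, triC]; decide
  next_other := by
    have key : ∀ h : Fin 6, h = 0 ∨ h = pa 0 ∨ h = pa (pa 0) ∨ h = rv 0 ∨ h = pa (rv 0) ∨
        h = pa (pa (rv 0)) := by decide
    intro h h1 h2 h3 h4 h5 h6
    rcases key h with h0 | h0 | h0 | h0 | h0 | h0
    exacts [absurd h0 h1, absurd h0 h2, absurd h0 h3, absurd h0 h4, absurd h0 h5, absurd h0 h6]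
  pos_eq := by simp only [triA, triC]; decide
  x_eq := by
    intro h h1 h2
    fin_cases h <;> simp [triA, triC, rv, rvF] at h1 h2 ⊢
  y_eq := by
    intro h h1 h2
    fin_cases h <;> simp [triA, triC, rv, rvF] at h1 h2 ⊢

theorem flipCD (a b : ℝ) (ha : 0 < a) (hb : 0 < b) (hb1 : b < 1) (hb2 : 1 / 2 < b) :
    IsFlip (triC a b ha hb hb1) (triD a b ha hb2 hb1) 1 where
  tall := by constructor <;> simp [triC, pb, bF] <;> linarith
  tall_rev := by constructor <;> simp [triC, pb, bF, rv, rvF] <;> linarith
  rev_eq := rfl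
  next_e := by simp only [triD, triC]; decide
  next_b := by simp only [triD, triC]; decide
  next_c := by simp only [triD, triC]; decide
  next_rev_e := by simp only [triD, triC]; decide
  next_d := by simp only [triD, triC]; decide
  next_a := by simp only [triD, triC]; decide
  next_other := by
    have key : ∀ h : Fin 6, h = 1 ∨ h = pb 1 ∨ h = pb (pb 1) ∨ h = rv 1 ∨ h = pb (rv 1) ∨
        h = pb (pb (rv 1)) := by decide
    intro h h1 h2 h3 h4 h5 h6
    rcases key h with h0 | h0 | h0 | h0 | h0 | h0
    exacts [absurd h0 h1, absurd h0 h2, absurd h0 h3, absurd h0 h4, absurd h0 h5, absurd h0 h6]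
  pos_eq := by simp only [triD, triC]; decide
  x_eq := by
    intro h h1 h2
    fin_cases h <;> simp [triD, triC, rv, rvF] at h1 h2 ⊢
  y_eq := by
    intro h h1 h2
    fin_cases h <;> simp [triD, triC, rv, rvF] at h1 h2 ⊢

theorem exists_lam (N : ℕ) : ∃ lam : ℝ, lam * lam = (2 * N + 3) * lam - 1 ∧ 2 < lam ∧
    lam < 2 * N + 3 := by
  have hN : (0 : ℝ) ≤ N := Nat.cast_nonneg N
  set P : ℝ := 2 * N + 3 with hP
  have hP3 : 3 ≤ P := by rw [hP]; linarith
  have h0 : 0 ≤ P ^ 2 - 4 := by nlinarith
  have hs := Real.sq_sqrt h0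
  have hs0 : 0 ≤ Real.sqrt (P ^ 2 - 4) := Real.sqrt_nonneg _
  set s := Real.sqrt (P ^ 2 - 4) with hsd
  have hs1 : 1 < s := by nlinarith
  refine ⟨(P + s) / 2, by nlinarith, by linarith, ?_⟩
  have : s < P := by nlinarith
  linarith

/-- The sequence of triangulations. `xt`, `yw` are the sizes. -/
noncomputable def seq (N : ℕ) (xt yw : ℝ) (hx : 0 < xt) (hy : 1 / 2 < yw - 2 * N)
    (hy1 : yw - 2 * N < 1) (i : ℕ) : VTri (Fin 6) :=
  if h : i ≤ 2 * N then
    (if i % 2 = 0 then
      triA (xt + i) (yw - i) (by positivity)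
        (by have : (i : ℝ) ≤ 2 * N := by exact_mod_cast h
            linarith)
    else
      triB (xt + i) (yw - i) (by positivity)
        (by have : (i : ℝ) ≤ 2 * N := by exact_mod_cast h
            linarith))
  else if i = 2 * N + 1 then
    triC (xt + (2 * N + 1)) (yw - 2 * N) (by positivity) (by linarith) hy1
  else triD (xt + (2 * N + 1)) (yw - 2 * N) (by positivity) hy hy1

def edge (N : ℕ) (i : ℕ) : Fin 6 :=
  if i ≤ 2 * N then (if i % 2 = 0 then 0 else 2) else 1

def mono : Equiv.Perm (Fin 6) := ⟨![2, 3, 4, 5, 0, 1], ![4, 5, 0, 1, 2, 3], by decide, by decide⟩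

theorem flips (N : ℕ) (xt yw : ℝ) (hx : 0 < xt) (hy : 1 / 2 < yw - 2 * N)
    (hy1 : yw - 2 * N < 1) (i : ℕ) (hi : i < 2 * N + 2) :
    IsFlip (seq N xt yw hx hy hy1 i) (seq N xt yw hx hy hy1 (i + 1)) (edge N i) := by
  rcases Nat.lt_trichotomy i (2 * N) with h | h | h
  · have h1 : i ≤ 2 * N := h.le
    have h2 : i + 1 ≤ 2 * N := h
    have h2' : (i : ℝ) + 1 ≤ 2 * N := by exact_mod_cast h2
    have hc : xt + ((i + 1 : ℕ) : ℝ) = xt + i + 1 := by push_cast; ring
    have hd : yw - ((i + 1 : ℕ) : ℝ) = yw - i - 1 := by push_cast; ring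
    by_cases hp : i % 2 = 0
    · have hq : ¬ (i + 1) % 2 = 0 := by omega
      simp only [seq, edge, h1, h2, hp, hq, dif_pos, if_true, if_false, hc, hd]
      exact flipAB _ _ _ _ _ _
    · have hq : (i + 1) % 2 = 0 := by omega
      simp only [seq, edge, h1, h2, hp, hq, dif_pos, if_true, if_false, hc, hd]
      exact flipBA _ _ _ _ _ _
  · subst h
    have h2 : ¬ (2 * N + 1 ≤ 2 * N) := by omega
    have hq : (2 * N) % 2 = 0 := by omega
    have hc : xt + (2 * (N : ℝ) + 1) = xt + ((2 * N : ℕ) : ℝ) + 1 := by push_cast; ring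
    have hd : yw - 2 * (N : ℝ) = yw - ((2 * N : ℕ) : ℝ) := by push_cast; ring
    simp only [seq, edge, le_refl, h2, hq, dif_pos, dif_neg, if_true, not_false_iff]
    simp only [hc, hd]
    exact flipAC _ _ _ _ _ _
  · have hi1 : i = 2 * N + 1 := by omega
    subst hi1
    have h1 : ¬ (2 * N + 1 ≤ 2 * N) := by omega
    have h2 : ¬ (2 * N + 1 + 1 ≤ 2 * N) := by omega
    have h3 : ¬ (2 * N + 1 + 1 = 2 * N + 1) := by omega
    simp only [seq, edge, h1, h2, h3, dif_neg, if_true, if_false, not_false_iff]
    exact flipCD _ _ _ _ _ _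

end T19

open T19 in
/-- The monodromies `L R^N`-type: `n = 2 N + 2` flips and `D = λ < 2 N + 3`. -/
theorem exists_torus (N : ℕ) : ∃ V : LayeredVeering (Fin 6),
    V.n = 2 * N + 2 ∧ V.lam < 2 * N + 3 := by
  obtain ⟨lam, h1, h2, h3⟩ := exists_lam N
  have hN : (0 : ℝ) ≤ N := Nat.cast_nonneg N
  have hx : 0 < (2 * N + 1 : ℝ) / (lam - 1) := div_pos (by linarith) (by linarith)
  have hxe : (2 * N + 1 : ℝ) / (lam - 1) = lam - 2 * N - 2 := by
    rw [div_eq_iff (by linarith)]
    nlinarith
  have hy : 1 / 2 < (lam - 2) - 2 * (N : ℝ) := by nlinarith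
  have hy1 : (lam - 2) - 2 * (N : ℝ) < 1 := by linarith
  have e0 : seq N _ _ hx hy hy1 0 = triA ((2 * N + 1 : ℝ) / (lam - 1)) (lam - 2) hx (by linarith) := by
    simp [seq]
  have e1 : seq N _ _ hx hy hy1 (2 * N + 2) =
      triD ((2 * N + 1 : ℝ) / (lam - 1) + (2 * N + 1)) (lam - 2 - 2 * N) (by positivity) hy hy1 := by
    simp [seq]
  refine ⟨{ n := 2 * N + 2, tri := seq N _ _ hx hy hy1, edge := edge N,
            flip := flips N _ _ hx hy hy1, lam := lam, one_lt_lam := by linarith, mono := mono,
            mono_next := ?_, mono_rev := ?_, mono_pos := ?_, mono_x := ?_, mono_y := ?_ }, rfl, h3⟩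
  · rw [e0, e1]; simp only [triA, triD]; decide
  · rw [e0, e1]; simp only [triA, triD]; decide
  · rw [e0, e1]; simp only [triA, triD]; decide
  · rw [e0, e1]; simp only [triA, triD]
    rw [hxe]
    intro h
    fin_cases h <;> simp [mono] <;> nlinarith
  · rw [e0, e1]; simp only [triA, triD]
    intro h
    fin_cases h <;> simp [mono] <;> nlinarith

end Pool.Agent.Lib.MP_481aff_gt
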