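import Pool.Agent.Lib.MP_481aff_gt.Mg.G001
import Pool.Agent.Lib.MP_481aff_gt.Mg.G002
import Pool.Agent.Lib.MP_481aff_gt.Torus

/-! # The optimal exponent -/

namespace Pool.Agent.Lib.MP_481aff_gt

theorem one_lt_D {H : Type} [Fintype H] (V : LayeredVeering H) : 1 < V.D := by
  have : Nonempty H := ⟨V.edge 0⟩
  unfold LayeredVeering.D
  apply Real.one_lt_rpow V.one_lt_lam
  have : 0 < Fintype.card H := Fintype.card_pos
  positivity

theorem n_le {H : Type} [Fintype H] (V : LayeredVeering H) :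
    (V.n : ℝ) ≤ 160 * V.D * Real.log V.D * (Real.log V.D / Real.log (3 / 2) + 2) := by
  obtain ⟨B, hn, hl⟩ := V.exists_biFlow
  obtain ⟨A, hA, hc⟩ := B.exists_VAlg
  have hD : A.D = V.D := by rw [hA, hl]; rfl
  have h := A.main
  rw [hc, hn, hD] at h
  push_cast at h
  linarith

/-- Elementary: `D log D (log D / log (3/2) + 2) ≤ C D ^ α` for `D ≥ 1`. -/
theorem exists_C (α : ℝ) (hα : 1 < α) : ∃ C : ℝ, ∀ D : ℝ, 1 ≤ D →
    160 * D * Real.log D * (Real.log D / Real.log (3 / 2) + 2) ≤ C * D ^ α := by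
  have hL : 0 < Real.log (3 / 2 : ℝ) := Real.log_pos (by norm_num)
  set L := Real.log (3 / 2 : ℝ) with hLdef
  set ε : ℝ := (α - 1) / 2 with hε
  have hε0 : 0 < ε := by rw [hε]; linarith
  refine ⟨160 * (1 / ε) * ((1 / ε) / L + 2), fun D hD => ?_⟩
  have hD0 : 0 < D := by linarith
  have h1 : Real.log D ≤ (1 / ε) * D ^ ε := by
    have := Real.log_le_rpow_div hD0.le hε0
    calc Real.log D ≤ D ^ ε / ε := this
      _ = (1 / ε) * D ^ ε := by ring
  have h2 : 1 ≤ D ^ ε := Real.one_le_rpow hD hε0.le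
  have h3 : 0 ≤ Real.log D := Real.log_nonneg hD
  have h4 : Real.log D / L + 2 ≤ ((1 / ε) / L + 2) * D ^ ε := by
    have : Real.log D / L ≤ ((1 / ε) * D ^ ε) / L := div_le_div_of_nonneg_right h1 hL.le
    calc Real.log D / L + 2 ≤ ((1 / ε) * D ^ ε) / L + 2 * D ^ ε := by linarith
      _ = ((1 / ε) / L + 2) * D ^ ε := by ring
  have h5 : D * (D ^ ε * D ^ ε) = D ^ α := by
    rw [← Real.rpow_add hD0]
    nth_rewrite 1 [← Real.rpow_one D]
    rw [← Real.rpow_add hD0]
    congr 1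
    rw [hε]
    ring
  have h6 : Real.log D * (Real.log D / L + 2) ≤
      ((1 / ε) * D ^ ε) * (((1 / ε) / L + 2) * D ^ ε) := by
    apply mul_le_mul h1 h4 (by positivity) (by positivity)
  calc 160 * D * Real.log D * (Real.log D / L + 2)
      = 160 * D * (Real.log D * (Real.log D / L + 2)) := by ring
    _ ≤ 160 * D * (((1 / ε) * D ^ ε) * (((1 / ε) / L + 2) * D ^ ε)) :=
        mul_le_mul_of_nonneg_left h6 (by positivity)
    _ = 160 * (1 / ε) * ((1 / ε) / L + 2) * (D * (D ^ ε * D ^ ε)) := by ring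
    _ = _ := by rw [h5]

theorem upper (α : ℝ) (hα : 1 < α) : ∃ C : ℝ, ∀ (H : Type) [Fintype H] (V : LayeredVeering H),
    (V.n : ℝ) ≤ C * V.D ^ α := by
  obtain ⟨C, hC⟩ := exists_C α hα
  exact ⟨C, fun H _ V => (n_le V).trans (hC V.D (one_lt_D V).le)⟩

theorem lower (α : ℝ) (h0 : 0 < α) (C : ℝ)
    (h : ∀ (H : Type) [Fintype H] (V : LayeredVeering H), (V.n : ℝ) ≤ C * V.D ^ α) : 1 ≤ α := by
  by_contra hα
  push Not at hα
  have key : ∀ N : ℕ, (2 * (N : ℝ) + 3) ^ (1 - α) ≤ 2 * C := by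
    intro N
    obtain ⟨V, hn, hl⟩ := exists_torus N
    have hD : V.D = V.lam := by
      unfold LayeredVeering.D
      rw [Fintype.card_fin]
      norm_num
    have hV := h (Fin 6) V
    rw [hn, hD] at hV
    push_cast at hV
    have hlam : 0 < V.lam := lt_trans zero_lt_one V.one_lt_lam
    have ht : 0 < 2 * (N : ℝ) + 3 := by positivity
    have hC : 0 < C := by
      by_contra hC
      push Not at hC
      have h1 : C * V.lam ^ α ≤ 0 := mul_nonpos_of_nonpos_of_nonneg hC (by positivity)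
      have h2 : (0 : ℝ) ≤ N := Nat.cast_nonneg N
      linarith
    have h1 : V.lam ^ α ≤ (2 * (N : ℝ) + 3) ^ α := Real.rpow_le_rpow hlam.le hl.le h0.le
    have h2 : 2 * (N : ℝ) + 2 ≤ C * (2 * (N : ℝ) + 3) ^ α :=
      hV.trans (mul_le_mul_of_nonneg_left h1 hC.le)
    have h3 : 2 * (N : ℝ) + 3 ≤ 2 * C * (2 * (N : ℝ) + 3) ^ α := by
      have : (0 : ℝ) ≤ N := Nat.cast_nonneg N
      linarith
    rw [Real.rpow_sub ht, Real.rpow_one, div_le_iff₀ (by positivity)]
    exact h3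
  have htend : Filter.Tendsto (fun N : ℕ => (2 * (N : ℝ) + 3) ^ (1 - α)) Filter.atTop
      Filter.atTop := by
    apply (tendsto_rpow_atTop (by linarith : 0 < 1 - α)).comp
    apply Filter.tendsto_atTop_add_const_right
    exact Filter.Tendsto.const_mul_atTop (by norm_num) tendsto_natCast_atTop_atTop
  obtain ⟨N, hN⟩ := (htend.eventually_gt_atTop (2 * C)).exists
  exact absurd (key N) (not_le.2 hN)

theorem final : IsGLB {α : ℝ | 0 < α ∧ ∃ C : ℝ, ∀ (H : Type) [Fintype H] (V : LayeredVeering H),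
    (V.n : ℝ) ≤ C * V.D ^ α} 1 := by
  constructor
  · rintro α ⟨h0, C, h⟩
    exact lower α h0 C h
  · intro b hb
    refine le_of_forall_gt_imp_ge_of_dense ?_
    intro a ha
    apply hb
    exact ⟨by linarith, upper a ha⟩

end Pool.Agent.Lib.MP_481aff_gt
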